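import Mathlib
import Pool.Agent.Helper12_WBX.Stmts

/-!
# Squad WBX, module RKM: ranks of the path operators of the network of a formula
-/

set_option autoImplicit false

namespace Pool.Agent.WBX.H65

open Pool.Agent.Helper78_ACIT Pool.Agent.TRN Pool.Agent.UO Matrix

theorem desc_append (ξ : List Bool) (d : Bool) (f : Fm) :
    f.desc (ξ ++ [d]) = (f.desc ξ).bind (fun g => g.child d) := by
  induction ξ generalizing f with
  | nil =>
    change (f.child d).bind (Fm.desc []) = f.child d
    cases f.child d with
    | none => rfl
    | some g => rfl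
  | cons a ξ ih =>
    change (f.child a).bind (Fm.desc (ξ ++ [d])) =
      ((f.child a).bind (Fm.desc ξ)).bind (fun g => g.child d)
    cases f.child a with
    | none => rfl
    | some g => exact ih g

theorem child_depth (f : Fm) (d : Bool) (g : Fm) (h : f.child d = some g) :
    g.depth + 1 ≤ f.depth := by
  cases f with
  | zero => simp [Fm.child] at h
  | one => simp [Fm.child] at h
  | var v => simp [Fm.child] at h
  | add a b =>
    simp only [Fm.child, Option.some.injEq] at h
    subst h
    cases d <;> simp [Fm.depth]
  | sub a b =>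
    simp only [Fm.child, Option.some.injEq] at h
    subst h
    cases d <;> simp [Fm.depth]
  | mul a b =>
    simp only [Fm.child, Option.some.injEq] at h
    subst h
    cases d <;> simp [Fm.depth]

theorem desc_depth (ξ : List Bool) (f g : Fm) (h : f.desc ξ = some g) :
    g.depth + ξ.length ≤ f.depth := by
  induction ξ generalizing f with
  | nil =>
    simp only [Fm.desc, Option.some.injEq] at h
    subst h
    simp
  | cons a ξ ih =>
    simp only [Fm.desc] at h
    cases hc : f.child a with
    | none => rw [hc] at h; simp at h
    | some f' =>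
      rw [hc] at h
      have h1 := ih f' h
      have h2 := child_depth f a f' hc
      rw [List.length_cons]
      omega

section mat

variable {F : Type} [Field F]

/-- lower triangular matrices with upper left entry 1 -/
def lm (p q : F) : Matrix (Fin 2) (Fin 2) F := !![1, 0; p, q]

theorem lm_mul (p q p' q' : F) : lm p q * lm p' q' = lm (p + q * p') (q * q') := by
  unfold lm
  rw [Matrix.mul_fin_two]
  simp

theorem one_eq_lm : (1 : Matrix (Fin 2) (Fin 2) F) = lm 0 1 := by
  unfold lm
  rw [Matrix.one_fin_two]

theorem rank_lm_pos (p q : F) : 1 ≤ (lm p q).rank := by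
  unfold Matrix.rank
  rw [Submodule.one_le_finrank_iff]
  intro h
  have h1 : (lm p q).mulVecLin ![1, 0] ∈ LinearMap.range (lm p q).mulVecLin := ⟨_, rfl⟩
  rw [h, Submodule.mem_bot] at h1
  have h2 := congrFun h1 0
  simp [lm] at h2

theorem rank_lm_zero (p : F) : (lm p 0).rank ≤ 1 := by
  have h : lm p 0 = Matrix.vecMulVec ![1, p] ![1, 0] := by
    unfold lm
    ext i j
    fin_cases i <;> fin_cases j <;> simp [Matrix.vecMulVec]
  rw [h]
  exact Matrix.rank_vecMulVec_le _ _

theorem rank_lm_two (p q : F) (hq : q ≠ 0) : (lm p q).rank = 2 := by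
  have h : (lm p q).det ≠ 0 := by
    unfold lm
    rw [Matrix.det_fin_two]
    simpa using hq
  rw [Matrix.rank_of_det_ne_zero h]
  rfl

theorem rank_le_two (A : Matrix (Fin 2) (Fin 2) F) : A.rank ≤ 2 := by
  have := A.rank_le_card_width
  simpa using this

/-- the lower right entry of the operator of a vertex -/
def qn (x : ℕ → F) (o : Option Fm) (d : Bool) : F :=
  match o with
  | some (.add _ _) => 1
  | some (.sub _ _) => if d = true then -1 else 1
  | some (.mul g h) => if d = true then g.eval x else h.eval x
  | _ => 0

/-- value of the message -/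
def vl (x : ℕ → F) (o : Option Fm) : F :=
  match o with
  | some g => g.eval x
  | none => 0

end mat

theorem lay_lm (hmsg : MsgStmt) (F : Type) [Field F] (f : Fm) (n : ℕ) (hn : f.depth ≤ n)
    (x : ℕ → F) (z : List Bool) (l : ℕ) (hl : l < z.length) (hz : z.length ≤ n) :
    ∃ p, lay ![1, 0] n (fun ξ => tens x (f.desc ξ)) z l =
      lm p (qn x (f.desc (z.take l)) (z.getD l false)) := by
  have hlen : (z.take l).length = l := by
    rw [List.length_take]
    omega
  have hm : ∀ d : Bool, msg ![1, 0] (fun ξ => tens x (f.desc ξ)) (n - (l + 1)) (z.take l ++ [d]) =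
      ![1, vl x (f.desc (z.take l ++ [d]))] := by
    intro d
    refine hmsg F x f (n - (l + 1)) (z.take l ++ [d]) ?_
    intro g hg
    have h1 := desc_depth _ f g hg
    rw [List.length_append, hlen, List.length_singleton] at h1
    omega
  unfold lay
  simp only [hm, desc_append]
  cases hd : z.getD l false with
  | true =>
    rw [if_pos rfl]
    cases ho : f.desc (z.take l) with
    | none =>
      refine ⟨0, ?_⟩
      ext c b
      fin_cases c <;> fin_cases b <;> simp [lm, qn, tens, vl, Fin.sum_univ_two]
    | some g =>
      cases g with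
      | zero =>
        refine ⟨0, ?_⟩
        ext c b
        fin_cases c <;> fin_cases b <;> simp [lm, qn, tens, vl, Fin.sum_univ_two]
      | one =>
        refine ⟨1, ?_⟩
        ext c b
        fin_cases c <;> fin_cases b <;> simp [lm, qn, tens, vl, Fin.sum_univ_two]
      | var v =>
        refine ⟨x v, ?_⟩
        ext c b
        fin_cases c <;> fin_cases b <;> simp [lm, qn, tens, vl, Fin.sum_univ_two]
      | add g h =>
        refine ⟨g.eval x, ?_⟩
        ext c b
        fin_cases c <;> fin_cases b <;> simp [lm, qn, tens, vl, Fm.child, Fin.sum_univ_two]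
      | sub g h =>
        refine ⟨g.eval x, ?_⟩
        ext c b
        fin_cases c <;> fin_cases b <;> simp [lm, qn, tens, vl, Fm.child, Fin.sum_univ_two]
      | mul g h =>
        refine ⟨0, ?_⟩
        ext c b
        fin_cases c <;> fin_cases b <;> simp [lm, qn, tens, vl, Fm.child, Fin.sum_univ_two]
  | false =>
    rw [if_neg (by simp)]
    cases ho : f.desc (z.take l) with
    | none =>
      refine ⟨0, ?_⟩
      ext c b
      fin_cases c <;> fin_cases b <;> simp [lm, qn, tens, vl, Fin.sum_univ_two]
    | some g =>
      cases g with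
      | zero =>
        refine ⟨0, ?_⟩
        ext c b
        fin_cases c <;> fin_cases b <;> simp [lm, qn, tens, vl, Fin.sum_univ_two]
      | one =>
        refine ⟨1, ?_⟩
        ext c b
        fin_cases c <;> fin_cases b <;> simp [lm, qn, tens, vl, Fin.sum_univ_two]
      | var v =>
        refine ⟨x v, ?_⟩
        ext c b
        fin_cases c <;> fin_cases b <;> simp [lm, qn, tens, vl, Fin.sum_univ_two]
      | add g h =>
        refine ⟨h.eval x, ?_⟩
        ext c b
        fin_cases c <;> fin_cases b <;> simp [lm, qn, tens, vl, Fm.child, Fin.sum_univ_two]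
      | sub g h =>
        refine ⟨-(h.eval x), ?_⟩
        ext c b
        fin_cases c <;> fin_cases b <;> simp [lm, qn, tens, vl, Fm.child, Fin.sum_univ_two]
      | mul g h =>
        refine ⟨0, ?_⟩
        ext c b
        fin_cases c <;> fin_cases b <;> simp [lm, qn, tens, vl, Fm.child, Fin.sum_univ_two]

theorem path_lm (hmsg : MsgStmt) (F : Type) [Field F] (f : Fm) (n : ℕ) (hn : f.depth ≤ n)
    (x : ℕ → F) (z : List Bool) (hz : z.length ≤ n) (i j : ℕ) (hij : i ≤ j) (hj : j ≤ z.length) :
    ∃ p, path ![1, 0] n (fun ξ => tens x (f.desc ξ)) z i j =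
      lm p (∏ l ∈ Finset.Ico i j, qn x (f.desc (z.take l)) (z.getD l false)) := by
  induction j, hij using Nat.le_induction with
  | base =>
    refine ⟨0, ?_⟩
    unfold path
    rw [seg_self, Finset.Ico_self, Finset.prod_empty]
    exact one_eq_lm
  | succ j hij ih =>
    obtain ⟨p, hp⟩ := ih (by omega)
    obtain ⟨p', hp'⟩ := lay_lm hmsg F f n hn x z j (by omega) hz
    refine ⟨p + (∏ l ∈ Finset.Ico i j, qn x (f.desc (z.take l)) (z.getD l false)) * p', ?_⟩
    have h1 : path ![1, 0] n (fun ξ => tens x (f.desc ξ)) z i (j + 1) =
        path ![1, 0] n (fun ξ => tens x (f.desc ξ)) z i j *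
          lay ![1, 0] n (fun ξ => tens x (f.desc ξ)) z j := by
      unfold path
      rw [← seg_mul _ hij (Nat.le_succ j), seg_succ]
    rw [h1, hp, hp', lm_mul, Finset.prod_Ico_succ_top hij]

/-- RKM -/
theorem rkm (hmsg : MsgStmt) : RkmStmt := by
  intro F _ f n hn b hb z i j hij hj hz y
  obtain ⟨p, hp⟩ := path_lm hmsg F f n hn y z hz i j hij hj
  obtain ⟨p', hp'⟩ := path_lm hmsg F f n hn b z hz i j hij hj
  rw [hp, hp']
  by_cases h0 : ∏ l ∈ Finset.Ico i j, qn y (f.desc (z.take l)) (z.getD l false) = 0
  · rw [h0]
    exact (rank_lm_zero p).trans (rank_lm_pos _ _)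
  · have h1 : ∏ l ∈ Finset.Ico i j, qn b (f.desc (z.take l)) (z.getD l false) ≠ 0 := by
      refine Finset.prod_ne_zero_iff.2 ?_
      intro l hl
      have h2 := Finset.prod_ne_zero_iff.1 h0 l hl
      have hl' := Finset.mem_Ico.1 hl
      have hne : ∀ d : Bool, z.take l ++ [d] ≠ [] := by
        intro d h
        simp at h
      have key : ∀ (d : Bool) (g : Fm), (f.desc (z.take l)).bind (fun g => g.child d) = some g →
          g.eval y ≠ 0 → g.eval b ≠ 0 := by
        intro d g hg hy
        rw [← desc_append] at hg
        exact hb (z.take l ++ [d]) g (hne d) hg ⟨y, hy⟩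
      revert h2 key
      cases f.desc (z.take l) with
      | none => intro h2 _; simp [qn] at h2
      | some g =>
        cases g with
        | zero => intro h2 _; simp [qn] at h2
        | one => intro h2 _; simp [qn] at h2
        | var v => intro h2 _; simp [qn] at h2
        | add g h => intro _ _; simp [qn]
        | sub g h =>
          intro _ _
          cases z.getD l false <;> simp [qn]
        | mul g h =>
          intro h2 key
          cases hd : z.getD l false with
          | true =>
            rw [hd] at h2
            simp only [qn, if_true] at h2 ⊢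
            exact key false g rfl h2
          | false =>
            rw [hd] at h2
            simp only [qn] at h2 ⊢
            rw [if_neg (by simp)] at h2 ⊢
            exact key true h rfl h2
    rw [rank_lm_two _ _ h1]
    exact rank_le_two _

end Pool.Agent.WBX.H65
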